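import Mathlib
import Pool.Agent.H658R3.ZM8
import Pool.Agent.H658R3.LG2

/-!
Countably compact minimal groups with property `Z` are Lie groups.
-/

set_option autoImplicit false

open Filter Topology
open scoped Manifold ContDiff

namespace Pool.Agent.Results.MP_55ec57_gt.CountablyCompactLie

/-- Let `G` be a Hausdorff topological group which is countably compact (every countable open
cover has a finite subcover) and minimal (every continuous group isomorphism onto a Hausdorff
topological group has continuous inverse), and suppose that every closed zero-dimensional
subgroup of `G` is discrete (property `Z`).  Then `G` is compact and carries the structure of a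
real analytic manifold, modelled on a finite-dimensional real normed space and compatible with
its topology, for which the group operations are analytic: `G` is a compact Lie group. -/
theorem result :
    ∀ (G : Type) [Group G] [TopologicalSpace G] [IsTopologicalGroup G] [T2Space G],
      (∀ U : ℕ → Set G, (∀ n, IsOpen (U n)) → (⋃ n, U n) = Set.univ →
          ∃ s : Finset ℕ, (⋃ n ∈ s, U n) = Set.univ) →
      (∀ (H : Type) [Group H] [TopologicalSpace H] [IsTopologicalGroup H] [T2Space H]
          (f : G ≃* H), Continuous f → Continuous f.symm) →
      (∀ S : Subgroup G, IsClosed (S : Set G) →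
          TopologicalSpace.IsTopologicalBasis {s : Set S | IsClopen s} → DiscreteTopology S) →
      CompactSpace G ∧
      ∃ (E : Type) (_ : NormedAddCommGroup E) (_ : NormedSpace ℝ E) (_ : FiniteDimensional ℝ E)
        (_ : ChartedSpace E G), LieGroup 𝓘(ℝ, E) ω G := by
  intro G _ _ _ _ hcc hmin hZ
  have hpc := H658.ZM.pseudocompact_of_countablyCompact G hcc
  have hm := H658.ZM.minimal_of G hmin
  have hnb : ¬ H658.ZM.Bad G := by
    rintro ⟨H, h1, h2, -, h4⟩
    exact h4 (hZ H h1 h2)
  obtain ⟨hc, n, ρ, hρ⟩ := H658.ZM.lie_of_pseudocompact G hpc hm hnb
  exact ⟨hc, H658.LG.lieGroup_of_closedEmbedding n ρ hρ⟩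

end Pool.Agent.Results.MP_55ec57_gt.CountablyCompactLie
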